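import Mathlib
import Pool.Agent.W543.GE.Stm

/-!
# Good endomorphisms of free algebras: part STRIP
-/

set_option autoImplicit false

open scoped TensorProduct Kronecker Polynomial

universe u

namespace Pool.Agent.W225.GE

open Pool.Agent.W543.GE

section

variable {K : Type u} [Field K] {n : ℕ}

theorem eps_x (i : Fin n) : eps (x i : A K n) = 0 :=
  FreeAlgebra.lift_ι_apply _ _

theorem eps_star (a : A K n) : eps (star a) = eps a := by
  induction a using FreeAlgebra.induction with
  | grade0 r => rw [FreeAlgebra.star_algebraMap]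
  | grade1 i => rw [FreeAlgebra.star_ι]
  | mul a b ha hb => rw [star_mul, map_mul, map_mul, ha, hb, mul_comm]
  | add a b ha hb => rw [star_add, map_add, map_add, ha, hb]

theorem rho0_comm (a b : A K n) : Commute ((AlgHom.id K (A K n)) a)
    (((Algebra.ofId K (A K n)).comp eps) b) :=
  (Algebra.commutes (eps b) a).symm

/-- `a ⊗ b ↦ eps b • a`. -/
noncomputable def rho0 : (A K n ⊗[K] A K n) →ₐ[K] A K n :=
  Algebra.TensorProduct.lift (AlgHom.id K (A K n)) ((Algebra.ofId K (A K n)).comp eps) rho0_comm

theorem rho0_tmul (a b : A K n) : rho0 (a ⊗ₜ b) = a * algebraMap K (A K n) (eps b) :=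
  Algebra.TensorProduct.lift_tmul _ _ _ _ _

theorem rho0_lf (a : A K n) : rho0 (lf a) = a := by
  rw [lf, rho0_tmul, map_one, map_one, mul_one]

theorem rho0_rt (b : A K n) : rho0 (rt b) = algebraMap K (A K n) (eps b) := by
  rw [rt, rho0_tmul, eps_star, one_mul]

/-- `star` as a linear map. -/
noncomputable def starL : A K n →ₗ[K] A K n where
  toFun := star
  map_add' := star_add
  map_smul' := star_smul'

theorem starL_apply (a : A K n) : starL a = star a := rfl

/-- `id ⊗ star`. -/
noncomputable def T : (A K n ⊗[K] A K n) →ₗ[K] A K n ⊗[K] A K n :=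
  TensorProduct.map LinearMap.id starL

theorem T_lf (a : A K n) : T (lf a) = a ⊗ₜ 1 := by
  rw [T, lf, TensorProduct.map_tmul, starL_apply, star_one]
  rfl

theorem T_rt_mul (f : A K n) (z : A K n ⊗[K] A K n) : T (rt f * z) = T z * (1 ⊗ₜ f) := by
  induction z using TensorProduct.induction_on with
  | zero => rw [mul_zero, map_zero, zero_mul]
  | tmul a b =>
    rw [rt, Algebra.TensorProduct.tmul_mul_tmul, one_mul, T, TensorProduct.map_tmul,
      TensorProduct.map_tmul, Algebra.TensorProduct.tmul_mul_tmul, mul_one, starL_apply,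
      starL_apply, star_mul, star_star]
  | add a b ha hb => rw [mul_add, map_add, map_add, ha, hb, add_mul]

/-- `lf` as a linear map. -/
noncomputable def lfL : A K n →ₗ[K] A K n ⊗[K] A K n where
  toFun := lf
  map_add' := lf_add
  map_smul' := lf_smul

theorem lfL_apply (a : A K n) : lfL a = lf a := rfl

/-- The derivatives with respect to the `φ (x j)`. -/
noncomputable def dF (F : Matrix (Fin n) (Fin n) (A K n ⊗[K] A K n)) (j : Fin n) :
    A K n →ₗ[K] A K n ⊗[K] A K n where
  toFun a := ∑ i, dd a i * F i j
  map_add' a b := by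
    rw [← Finset.sum_add_distrib]
    refine Finset.sum_congr rfl fun i _ => ?_
    rw [map_add, Pi.add_apply, add_mul]
  map_smul' r a := by
    rw [RingHom.id_apply, Finset.smul_sum]
    refine Finset.sum_congr rfl fun i _ => ?_
    rw [map_smul, Pi.smul_apply, smul_mul_assoc]

theorem dF_apply (F : Matrix (Fin n) (Fin n) (A K n ⊗[K] A K n)) (j : Fin n) (a : A K n) :
    dF F j a = ∑ i, dd a i * F i j := rfl

theorem dF_mul (F : Matrix (Fin n) (Fin n) (A K n ⊗[K] A K n)) (j : Fin n) (a b : A K n) :
    dF F j (a * b) = lf a * dF F j b + rt b * dF F j a := by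
  rw [dF_apply, dF_apply, dF_apply, Finset.mul_sum, Finset.mul_sum, ← Finset.sum_add_distrib]
  refine Finset.sum_congr rfl fun i _ => ?_
  rw [dd_mul, add_mul, mul_assoc, mul_assoc]

theorem dF_one (F : Matrix (Fin n) (Fin n) (A K n ⊗[K] A K n)) (j : Fin n) :
    dF F j 1 = 0 := by
  rw [dF_apply, ← map_one (algebraMap K (A K n)), dd_algebraMap]
  refine Finset.sum_eq_zero fun i _ => ?_
  rw [Pi.zero_apply, zero_mul]

theorem dF_phi (φ : A K n →ₐ[K] A K n) (F : Matrix (Fin n) (Fin n) (A K n ⊗[K] A K n))
    (h : jac φ * F = 1) (j k : Fin n) : dF F j (φ (x k)) = if j = k then 1 else 0 := by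
  have h1 := congrFun (congrFun h k) j
  rw [Matrix.mul_apply, Matrix.one_apply] at h1
  rw [dF_apply]
  refine Eq.trans h1 ?_
  simp only [eq_comm]

theorem decomp0 (a : A K n) :
    a = algebraMap K (A K n) (eps a) + ∑ i, rho0 (dd a i) * x i := by
  induction a using FreeAlgebra.induction with
  | grade0 r =>
    rw [dd_algebraMap, AlgHom.commutes]
    simp
  | grade1 j =>
    rw [dd_x]
    have h1 : ∀ i : Fin n, rho0 ((Pi.single j 1 : Fin n → A K n ⊗[K] A K n) i) * x i =
        if i = j then x j else 0 := by
      intro i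
      by_cases hij : i = j
      · subst hij
        rw [Pi.single_eq_same, map_one, one_mul, if_pos rfl]
      · rw [Pi.single_eq_of_ne hij, map_zero, zero_mul, if_neg hij]
    simp only [h1]
    rw [eps_x, map_zero, zero_add]
    simp
  | mul a b ha hb =>
    have h1 : ∀ i : Fin n, rho0 (dd (a * b) i) * x i =
        a * (rho0 (dd b i) * x i) + algebraMap K (A K n) (eps b) * (rho0 (dd a i) * x i) := by
      intro i
      rw [dd_mul, map_add, map_mul, map_mul, rho0_lf, rho0_rt, add_mul, mul_assoc, mul_assoc]
    simp only [h1]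
    rw [Finset.sum_add_distrib, ← Finset.mul_sum, ← Finset.mul_sum]
    have ha' : ∑ i, rho0 (dd a i) * x i = a - algebraMap K (A K n) (eps a) :=
      eq_sub_of_add_eq' ha.symm
    have hb' : ∑ i, rho0 (dd b i) * x i = b - algebraMap K (A K n) (eps b) :=
      eq_sub_of_add_eq' hb.symm
    have h2 : algebraMap K (A K n) (eps (a * b)) =
        algebraMap K (A K n) (eps b) * algebraMap K (A K n) (eps a) := by
      rw [map_mul, mul_comm, map_mul]
    rw [ha', hb', h2, mul_sub, mul_sub, Algebra.commutes (eps b) a]
    abel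
  | add a b ha hb =>
    have h1 : ∀ i : Fin n, rho0 (dd (a + b) i) * x i =
        rho0 (dd a i) * x i + rho0 (dd b i) * x i := by
      intro i
      rw [map_add, Pi.add_apply, map_add, add_mul]
    simp only [h1]
    rw [Finset.sum_add_distrib, map_add, map_add]
    nth_rewrite 1 [ha, hb]
    abel

end

/-- PART STRIP. -/
theorem t_STRIP : STRIP_stmt.{u} := by
  intro K _ n φ hφ hJ
  obtain ⟨F, hJF, hFJ⟩ : ∃ F : Matrix (Fin n) (Fin n) (A K n ⊗[K] A K n),
      jac φ * F = 1 ∧ F * jac φ = 1 := by
    obtain ⟨u, hu⟩ := hJ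
    exact ⟨u.inv, by rw [← hu]; exact u.val_inv, by rw [← hu]; exact u.inv_val⟩
  have hf : ∀ k, φ (x k) = ∑ i, rho0 (jac φ k i) * x i := by
    intro k
    have h1 := decomp0 (φ (x k))
    rw [hφ k, map_zero, zero_add] at h1
    exact h1
  let nb : A K n →ₗ[K] A K n ⊗[K] A K n :=
    lfL + ∑ j, (LinearMap.mulRight K (rt (φ (x j)))) ∘ₗ dF F j
  have hnb : ∀ a, nb a = lf a + ∑ j, dF F j a * rt (φ (x j)) := by
    intro a
    simp only [nb, LinearMap.add_apply, LinearMap.sum_apply, LinearMap.comp_apply,
      LinearMap.mulRight_apply, lfL_apply]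
  refine ⟨fun j => rho0.toLinearMap ∘ₗ dF F j, T ∘ₗ nb, ?_, ?_, ?_, ?_, ?_⟩
  · intro j
    rw [LinearMap.comp_apply, dF_one, map_zero]
  · intro j k a
    rw [LinearMap.comp_apply, dF_mul, dF_phi φ F hJF, map_add]
    simp only [AlgHom.toLinearMap_apply, map_mul, rho0_lf, rho0_rt, hφ k, map_zero, zero_mul,
      add_zero]
    split_ifs with h
    · rw [map_one, mul_one]
    · rw [map_zero, mul_zero]
  · intro a
    simp only [LinearMap.comp_apply, AlgHom.toLinearMap_apply]
    have h1 : ∑ j, rho0 (dF F j a) * φ (x j) = ∑ i, rho0 (dd a i) * x i := by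
      calc ∑ j, rho0 (dF F j a) * φ (x j)
          = ∑ j, ∑ i, rho0 (dF F j a * jac φ j i) * x i := by
            refine Finset.sum_congr rfl fun j _ => ?_
            rw [hf j, Finset.mul_sum]
            refine Finset.sum_congr rfl fun i _ => ?_
            rw [map_mul, mul_assoc]
        _ = ∑ i, ∑ j, rho0 (dF F j a * jac φ j i) * x i := Finset.sum_comm
        _ = ∑ i, rho0 (dd a i) * x i := by
            refine Finset.sum_congr rfl fun i _ => ?_
            rw [← Finset.sum_mul, ← map_sum]
            congr 2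
            calc ∑ j, dF F j a * jac φ j i
                = ∑ j, ∑ l, dd a l * (F l j * jac φ j i) := by
                  refine Finset.sum_congr rfl fun j _ => ?_
                  rw [dF_apply, Finset.sum_mul]
                  refine Finset.sum_congr rfl fun l _ => ?_
                  rw [mul_assoc]
              _ = ∑ l, ∑ j, dd a l * (F l j * jac φ j i) := Finset.sum_comm
              _ = ∑ l, dd a l * (1 : Matrix (Fin n) (Fin n) (A K n ⊗[K] A K n)) l i := by
                  refine Finset.sum_congr rfl fun l _ => ?_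
                  rw [← Finset.mul_sum, ← hFJ, Matrix.mul_apply]
              _ = dd a i := by
                  simp only [Matrix.one_apply]
                  simp
    rw [h1]
    exact decomp0 a
  · rw [LinearMap.comp_apply, hnb]
    have h1 : ∑ j, dF F j 1 * rt (φ (x j)) = 0 := by
      refine Finset.sum_eq_zero fun j _ => ?_
      rw [dF_one, zero_mul]
    rw [h1, add_zero, T_lf]
    rfl
  · intro a k
    rw [LinearMap.comp_apply, LinearMap.comp_apply]
    have h1 : nb (a * φ (x k)) = lf (a * φ (x k)) + rt (φ (x k)) * nb a := by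
      rw [hnb, hnb]
      congr 1
      have h2 : ∀ j, dF F j (a * φ (x k)) * rt (φ (x j)) =
          (if j = k then lf a * rt (φ (x k)) else 0) +
            rt (φ (x k)) * (dF F j a * rt (φ (x j))) := by
        intro j
        rw [dF_mul, dF_phi φ F hJF, add_mul, mul_assoc (rt (φ (x k)))]
        congr 1
        split_ifs with h
        · rw [mul_one, h]
        · rw [mul_zero, zero_mul]
      simp only [h2]
      rw [Finset.sum_add_distrib, ← Finset.mul_sum, mul_add, ← lf_rt]
      simp
    rw [h1, map_add, T_lf, T_rt_mul]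

end Pool.Agent.W225.GE
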